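import Mathlib
import Pool.Agent.R213.LIS.Main

open R213LIS Topology

namespace Pool.Agent.Results.MP_89350a_an.ContinuousChoice

/-- The Banach space of continuous functions on the Cantor set. -/
abbrev CΔ (𝕜 : Type) [RCLike 𝕜] : Type := C(ℕ → Bool, 𝕜)

/-- Admissible Polish topologies on the set of closed linear subspaces of `C(Δ)`. -/
def Admissible (𝕜 : Type) [RCLike 𝕜] (τ : TopologicalSpace (SB 𝕜 (CΔ 𝕜))) : Prop :=
  @PolishSpace (SB 𝕜 (CΔ 𝕜)) τ ∧
  (∀ U : Set (CΔ 𝕜), IsOpen U → IsOpen[τ] (Eplus U : Set (SB 𝕜 (CΔ 𝕜)))) ∧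
  ∃ S : Set (Set (SB 𝕜 (CΔ 𝕜))), τ = TopologicalSpace.generateFrom S ∧
    ∀ A ∈ S, ∃ U V : ℕ → Set (CΔ 𝕜), (∀ n, IsOpen (U n)) ∧ (∀ n, IsOpen (V n)) ∧
      A = ⋃ n, (Eplus (U n) \ Eplus (V n))

/-- There are an admissible Polish topology and a continuous choice of dense sequences which are
linearly independent for every infinite-dimensional space. -/
theorem result (𝕜 : Type) [RCLike 𝕜] :
    ∃ τ : TopologicalSpace (SB 𝕜 (CΔ 𝕜)), Admissible 𝕜 τ ∧
      ∃ h : ℕ → SB 𝕜 (CΔ 𝕜) → CΔ 𝕜, (∀ i, @Continuous _ _ τ _ (h i)) ∧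
        (∀ X : SB 𝕜 (CΔ 𝕜), closure (Set.range fun i => h i X) = (X.sub : Set (CΔ 𝕜))) ∧
        ∀ X : SB 𝕜 (CΔ 𝕜), ¬ FiniteDimensional 𝕜 X.sub →
          LinearIndependent 𝕜 (fun i => h i X) := by
  obtain ⟨h, h1, h2, h3⟩ := exists_selection (𝕜 := 𝕜) (E := CΔ 𝕜)
  refine ⟨inferInstance, ⟨inferInstance, fun U hU => isOpen_Eplus hU, ?_⟩, h, h1, h2, h3⟩
  let S : Set (Set (SB 𝕜 (CΔ 𝕜))) :=
    {A | ∃ p, A = Eplus (bb (CΔ 𝕜) p) ∨ A = (Eplus (bb (CΔ 𝕜) p))ᶜ}
  refine ⟨S, ?_, ?_⟩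
  · apply le_antisymm
    · apply le_generateFrom
      rintro A ⟨p, rfl | rfl⟩
      · exact isOpen_Eplus_bb p
      · exact (isClosed_Eplus_bb p).isOpen_compl
    · -- every open set is generated by `S`
      let τ' : TopologicalSpace (SB 𝕜 (CΔ 𝕜)) := TopologicalSpace.generateFrom S
      change TopologicalSpace.generateFrom S ≤ TopologicalSpace.induced code inferInstance
      rw [← continuous_iff_le_induced]
      refine @continuous_pi _ _ _ τ' _ _ fun p => ?_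
      refine (@continuous_discrete_rng _ _ τ' _ _ _).mpr fun b => ?_
      cases b
      · apply TopologicalSpace.isOpen_generateFrom_of_mem
        refine ⟨p, Or.inr ?_⟩
        ext X
        simp [← code_eq_true]
      · apply TopologicalSpace.isOpen_generateFrom_of_mem
        refine ⟨p, Or.inl ?_⟩
        ext X
        simp [← code_eq_true]
  · have huniv : (Eplus (Set.univ : Set (CΔ 𝕜)) : Set (SB 𝕜 (CΔ 𝕜))) = Set.univ := by
      apply Set.eq_univ_of_forall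
      intro X
      exact ⟨0, X.sub.zero_mem, trivial⟩
    have hempty : (Eplus (∅ : Set (CΔ 𝕜)) : Set (SB 𝕜 (CΔ 𝕜))) = ∅ := by
      apply Set.eq_empty_of_forall_notMem
      rintro X ⟨x, _, hx⟩
      exact hx
    rintro A ⟨p, rfl | rfl⟩
    · refine ⟨fun _ => bb (CΔ 𝕜) p, fun _ => ∅, fun _ => isOpen_bb p, fun _ => isOpen_empty, ?_⟩
      beta_reduce
      rw [hempty, Set.iUnion_const, Set.diff_empty]
    · refine ⟨fun _ => Set.univ, fun _ => bb (CΔ 𝕜) p, fun _ => isOpen_univ,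
        fun _ => isOpen_bb p, ?_⟩
      beta_reduce
      rw [huniv, Set.iUnion_const, Set.compl_eq_univ_sdiff]

end Pool.Agent.Results.MP_89350a_an.ContinuousChoice
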